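import Mathlib

set_option autoImplicit false

namespace Pool.Agent.Results.MP_68514f_co.ParityObstruction

/-- A mixed graph: a set of undirected edges (a simple graph) and a set of arcs without loops. -/
structure MixedGraph (V : Type) where
  edges : SimpleGraph V
  arc : V → V → Prop
  arc_loopless : ∀ v, ¬ arc v v

namespace MixedGraph

variable {V : Type} (G : MixedGraph V)

/-- `G.step u v`: there is an edge `uv` or an arc from `u` to `v`. -/
def step (u v : V) : Prop := G.edges.Adj u v ∨ G.arc u v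

/-- `G.walk ℓ u v`: there is a walk of length `ℓ` from `u` to `v`. -/
def walk (G : MixedGraph V) : ℕ → V → V → Prop
  | 0, u, v => u = v
  | ℓ + 1, u, v => ∃ w, walk G ℓ u w ∧ G.step w v

/-- The out-eccentricity of `u` is at most `m`. -/
def EccLE (u : V) (m : ℕ) : Prop := ∀ v, ∃ ℓ, ℓ ≤ m ∧ G.walk ℓ u v

/-- `G` is totally `(r,z)`-regular. -/
def TotallyRegular (r z : ℕ) : Prop :=
  ∀ v, {w | G.edges.Adj v w}.ncard = r ∧ {w | G.arc v w}.ncard = z ∧ {w | G.arc w v}.ncard = z

/-- The radius of `G` is `k`: the least value of the out-eccentricity is `k`. -/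
def RadiusEq (k : ℕ) : Prop := IsLeast {m | ∃ u, G.EccLE u m} k

/-- The diameter of `G` is `k`: `k` is the least common bound of all out-eccentricities. -/
def DiameterEq (k : ℕ) : Prop := IsLeast {m | ∀ u, G.EccLE u m} k

end MixedGraph

/-- The numbers `N_i`. -/
def N (r z : ℕ) : ℕ → ℕ
  | 0 => 1
  | 1 => r + z
  | i + 2 => (r + z - 1) * N r z (i + 1) + z * N r z i

/-- The mixed Moore bound. -/
def M (r z k : ℕ) : ℕ := ∑ i ∈ Finset.range (k + 1), N r z i

/-- An `(r,z,k)`-mixed radial Moore graph. -/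
def IsMixedRadialMoore {V : Type} (G : MixedGraph V) (r z k : ℕ) : Prop :=
  G.TotallyRegular r z ∧ G.RadiusEq k ∧ G.DiameterEq (k + 1) ∧ Nat.card V = M r z k

theorem N_parity (r z : ℕ) (hr : Odd r) (hz : Odd z) (j : ℕ) :
    N r z (3 * j) % 2 = 1 ∧ N r z (3 * j + 1) % 2 = 0 ∧ N r z (3 * j + 2) % 2 = 1 := by
  have hr' : r % 2 = 1 := Nat.odd_iff.1 hr
  have hz' : z % 2 = 1 := Nat.odd_iff.1 hz
  have hrec : ∀ i, N r z (i + 2) % 2 = (N r z (i + 1) + N r z i) % 2 := by
    intro i
    have h1 : (r + z - 1) % 2 = 1 := by omega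
    change ((r + z - 1) * N r z (i + 1) + z * N r z i) % 2 = _
    rw [Nat.add_mod, Nat.mul_mod, h1, Nat.mul_mod z, hz']
    simp [Nat.add_mod]
  induction j with
  | zero =>
    have h0 : N r z 0 = 1 := rfl
    have h1 : N r z 1 = r + z := rfl
    have h2 := hrec 0
    simp only [mul_zero, zero_add] at h2 ⊢
    rw [h0, h1] at *
    refine ⟨rfl, by omega, by omega⟩
  | succ j ih =>
    obtain ⟨h0, h1, h2⟩ := ih
    have h3 := hrec (3 * j + 1)
    have h4 := hrec (3 * j + 2)
    have h5 := hrec (3 * j + 3)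
    rw [show 3 * (j + 1) = 3 * j + 3 by ring]
    rw [show 3 * j + 1 + 2 = 3 * j + 3 by ring, show 3 * j + 1 + 1 = 3 * j + 2 by ring] at h3
    rw [show 3 * j + 2 + 2 = 3 * j + 3 + 1 by ring, show 3 * j + 2 + 1 = 3 * j + 3 by ring] at h4
    refine ⟨by omega, by omega, by omega⟩

theorem M_succ (r z k : ℕ) : M r z (k + 1) = M r z k + N r z (k + 1) := by
  unfold M
  rw [Finset.sum_range_succ]

theorem M_parity (r z : ℕ) (hr : Odd r) (hz : Odd z) (j : ℕ) :
    M r z (3 * j) % 2 = 1 ∧ M r z (3 * j + 1) % 2 = 1 ∧ M r z (3 * j + 2) % 2 = 0 := by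
  induction j with
  | zero =>
    have h0 : M r z 0 = 1 := by simp [M, N]
    have h1 := M_succ r z 0
    have h2 : M r z 2 = M r z 1 + N r z 2 := M_succ r z 1
    obtain ⟨_, h4, h5⟩ := N_parity r z hr hz 0
    simp only [mul_zero, zero_add] at *
    refine ⟨by omega, by omega, by omega⟩
  | succ j ih =>
    obtain ⟨_, _, h2⟩ := ih
    obtain ⟨h3, h4, h5⟩ := N_parity r z hr hz (j + 1)
    have h6 := M_succ r z (3 * j + 2)
    have h7 := M_succ r z (3 * (j + 1))
    have h8 : M r z (3 * (j + 1) + 2) = M r z (3 * (j + 1) + 1) + N r z (3 * (j + 1) + 2) :=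
      M_succ r z (3 * (j + 1) + 1)
    rw [show 3 * j + 2 + 1 = 3 * (j + 1) by ring] at h6
    refine ⟨by omega, by omega, by omega⟩

theorem M_odd (r z k : ℕ) (hr : Odd r) (hz : Odd z) (hk : k % 3 ≠ 2) : M r z k % 2 = 1 := by
  obtain ⟨h0, h1, _⟩ := M_parity r z hr hz (k / 3)
  have h := Nat.div_add_mod k 3
  have h3 : k % 3 = 0 ∨ k % 3 = 1 := by omega
  rcases h3 with h3 | h3
  · rw [h3] at h
    rw [show k = 3 * (k / 3) by omega]
    exact h0
  · rw [h3] at h
    rw [show k = 3 * (k / 3) + 1 by omega]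
    exact h1

theorem M_pos (r z k : ℕ) : 0 < M r z k := by
  unfold M
  refine Finset.sum_pos' (fun _ _ => Nat.zero_le _) ⟨0, by simp, ?_⟩
  simp [N]

/-- A totally `(r,z)`-regular mixed graph with `r` odd has even order. -/
theorem even_order {V : Type} (G : MixedGraph V) (r z : ℕ) (hr : Odd r)
    (hG : G.TotallyRegular r z) (hV : 0 < Nat.card V) : Even (Nat.card V) := by
  classical
  have hfin : Finite V := Nat.finite_of_card_ne_zero hV.ne'
  have := Fintype.ofFinite V
  have h := G.edges.sum_degrees_eq_twice_card_edges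
  have hd : ∀ v, G.edges.degree v = r := by
    intro v
    rw [← (hG v).1, ← SimpleGraph.card_neighborFinset_eq_degree, SimpleGraph.neighborFinset,
      Set.ncard_eq_toFinset_card']
    congr 1
  simp only [hd, Finset.sum_const, Finset.card_univ, smul_eq_mul] at h
  rw [Nat.card_eq_fintype_card]
  have h2 : Even (Fintype.card V * r) := by rw [h]; exact even_two_mul _
  rcases Nat.even_mul.1 h2 with h3 | h3
  · exact h3
  · exact absurd h3 (Nat.not_even_iff_odd.2 hr)

/-- **Main result.** -/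
theorem result :
    (∀ r z k : ℕ, Odd r → Odd z → k % 3 ≠ 2 →
      ∀ (V : Type) (G : MixedGraph V), ¬ (G.TotallyRegular r z ∧ Nat.card V = M r z k)) ∧
    (∀ r z k : ℕ, Odd r → Odd z → k % 3 ≠ 2 →
      ¬ ∃ (V : Type) (G : MixedGraph V), IsMixedRadialMoore G r z k) ∧
    ¬ ∀ r z k : ℕ, 1 ≤ r → 1 ≤ z → 2 ≤ k →
      ∃ (V : Type) (G : MixedGraph V), IsMixedRadialMoore G r z k := by
  have key : ∀ r z k : ℕ, Odd r → Odd z → k % 3 ≠ 2 →
      ∀ (V : Type) (G : MixedGraph V), ¬ (G.TotallyRegular r z ∧ Nat.card V = M r z k) := by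
    rintro r z k hr hz hk V G ⟨h1, h2⟩
    have h3 := M_odd r z k hr hz hk
    have h4 := even_order G r z hr h1 (by rw [h2]; exact M_pos r z k)
    rw [h2, Nat.even_iff] at h4
    omega
  have key2 : ∀ r z k : ℕ, Odd r → Odd z → k % 3 ≠ 2 →
      ¬ ∃ (V : Type) (G : MixedGraph V), IsMixedRadialMoore G r z k := by
    rintro r z k hr hz hk ⟨V, G, h1, _, _, h2⟩
    exact key r z k hr hz hk V G ⟨h1, h2⟩
  refine ⟨key, key2, fun h => ?_⟩
  exact key2 1 1 3 (by decide) (by decide) (by decide) (h 1 1 3 le_rfl le_rfl (by norm_num))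

end Pool.Agent.Results.MP_68514f_co.ParityObstruction
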